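import Pool.Agent.HMT.Defs

/-!
# Squad HMT (MP_09e7c7_co, mates for Harary polynomials): rows

Main theorem: if on thin graphs (very sparse graphs) of large order membership in `P` depends only on
the order, the number of edges and the 2-core, or if this holds for the property of the complements,
then there are infinitely many pairs of mates.

The graphs are `G_+ = Gr 1 univ` and `G_- = Gr (-1) univ` of the frame `cf q T`, with `T ≥ g` and
`q` large.
-/

open scoped Classical

namespace Pool.Agent.HMT

/-! ## General facts -/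

/-- HCI: the numbers `h_i` are invariant under isomorphism.
PROOF. Let `e : G ≃g H`. `π ↦ π.comap e.symm` is a bijection between the equivalence relations
(inverse `comap e`); the quotients are in bijection (`Quotient.congr`), and the restriction of `e` is
an isomorphism of `G.induce {w | π.r w v}` onto `H.induce {w | (π.comap e.symm).r w (e v)}`; use
`P.iso`. `Nat.card_congr` with `Equiv.subtypeEquiv`. -/
def HciStmt : Prop :=
  ∀ (P : GProp) (V W : Type) [Finite V] [Finite W] (G : SimpleGraph V) (H : SimpleGraph W),
    Nonempty (G ≃g H) → ∀ i, hc P G i = hc P H i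

/-- FIN: from types to `Fin n`.
PROOF. `n = Nat.card V`; transport `G` to `G' : SimpleGraph (Fin n)` along `Finite.equivFin`
(`SimpleGraph.map` or `comap`; `SimpleGraph.Iso.comap`/`Iso.map`), same for `H` (the orders are
equal). HCI gives the same numbers `hc` for all `i`, so the polynomials agree. -/
def FinStmt : Prop :=
  ∀ P : GProp, (∀ N : ℕ, ∃ (V W : Type) (_ : Finite V) (_ : Finite W) (G : SimpleGraph V)
    (H : SimpleGraph W), N ≤ Nat.card V ∧ Nat.card V = Nat.card W ∧ ¬ Nonempty (G ≃g H) ∧
      ∀ i, hc P G i = hc P H i) → InfMates P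

/-- CPL: complements.
PROOF. `hc P Gᶜ i = hc P.co G i`, because `Gᶜ.induce B = (G.induce B)ᶜ` (ext; `Subtype.coe_ne_coe`),
so `harary P Gᶜ = harary P.co G`. An isomorphism of the complements is an isomorphism of the graphs.
For mates `G, H` of `P.co` take `Gᶜ, Hᶜ`. -/
def CplStmt : Prop := ∀ P : GProp, InfMates P.co → InfMates P

/-- COI: isomorphic graphs have isomorphic 2-cores.
PROOF. The isomorphism maps a set `S` as in the definition of `core` to such a set. -/
def CoiStmt : Prop :=
  ∀ (V W : Type) (G : SimpleGraph V) (H : SimpleGraph W), Nonempty (G ≃g H) →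
    Nonempty (G.induce (core G) ≃g H.induce (core H))

/-! ## Frames -/

/-- CAN: cancellation.
PROOF. For `Z ⊆ A` let `Z' = symmDiff Z {r}` (`erase` or `insert`). Every block `{w | π.r w v}` does
not contain both `inr (par r)` and `inr (inr r)`, so the induced subgraphs of `Gr ε Z` and `Gr ε Z'`
on the block are EQUAL, so `Val Z ↔ Val Z'`. `Finset.sum_involution`, or split the powerset of
`A = insert r (A.erase r)` with `Finset.sum_powerset_insert`. -/
def CanStmt : Prop :=
  ∀ (F : Fr) (P : GProp) (ε : ℤˣ) (A : Finset F.R) (π : Setoid (F.Vert ε)) (r : F.R), r ∈ A →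
    ¬ F.Ins π r → ∑ Z ∈ A.powerset, (-1 : ℤ) ^ Z.card * (if F.Val P ε Z π then 1 else 0) = 0

/-- ISO: `σ` is an isomorphism on `B` if `ψ` respects the parents of the vertices of `Z` in `B`.
PROOF. Restrict `σ` to `B` (`Equiv.image`). Adjacency in `Gr`: check the three kinds of edges of
`rel`. Spiders: `(g, x) ~ (h, y)` iff `g = h` and `S.Adj x y`; `g ↦ (j k) g` is injective. Legs:
`x = e (g⁻¹ l)` iff `x = e (((j k) g)⁻¹ ((j k) l))`. Trees: for `r ∈ Z` in `B`: `p = par r` iff
`hat p = hat (par r) = par (ψ r)` (`hat` is injective); `ψ r ∈ Z.map ψ` iff `r ∈ Z`. -/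
def IsoStmt : Prop :=
  ∀ (F : Fr) (ε ε' : ℤˣ) (hε : ε' = -ε) (j k : F.J) (hjk : j ≠ k) (ψ : Equiv.Perm F.R)
    (Z : Finset F.R) (B : Set (F.Vert ε)),
    (∀ r ∈ Z, (Sum.inr (Sum.inr r) : F.Vert ε) ∈ B → F.par (ψ r) = F.hat j k ψ (F.par r)) →
    Nonempty ((F.Gr ε Z).induce B ≃g
      (F.Gr ε' (Z.map ψ.toEmbedding)).induce (F.sig ε ε' hε j k hjk ψ '' B))

/-- CRE: the trees do not meet the 2-core.
PROOF. Let `H = (Gr ε Z).induce B`, `H₀ = (Gr ε ∅).induce B`. If `S` is a set of vertices of `H` in
which every vertex has two neighbours in `S`, then `S` contains no vertex `inr (inr r)`: otherwise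
take one with `dep r` maximal (finite set); its neighbours in `H` are `inr (par r)` and vertices
`inr (inr r')` with `par r' = inr r`, which have larger depth and so are not in `S`: at most one
neighbour in `S`. Vertices which are not of the form `inr (inr r)` have the same adjacency in `H` and
`H₀`. So `core H = core H₀`, and the induced subgraphs on it are equal. -/
def CreStmt : Prop :=
  ∀ (F : Fr) (ε : ℤˣ) (Z : Finset F.R) (B : Set (F.Vert ε)),
    Nonempty (((F.Gr ε Z).induce B).induce (core ((F.Gr ε Z).induce B)) ≃g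
      ((F.Gr ε ∅).induce B).induce (core ((F.Gr ε ∅).induce B)))

/-- EDG: every tree edge inside `B` counts once.
PROOF. Induction on `Z` (`Finset.induction_on`): for `r ∉ Z` the graph `Gr ε (insert r Z)` is `Gr ε Z`
with one more edge `{inr (par r), inr (inr r)}` (it is not an edge of `Gr ε Z`: `par r = inr r'` and
`par r' = inr r` is impossible by `dep`), which is an edge of the induced subgraph on `B` iff both ends
are in `B`. Or: write the edge set as a disjoint union of the edge set of `Gr ε ∅` and the image of
the injective map `r ↦ s(inr (par r), inr (inr r))`. -/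
def EdgStmt : Prop :=
  ∀ (F : Fr) (ε : ℤˣ) (Z : Finset F.R) (B : Set (F.Vert ε)),
    Nat.card ((F.Gr ε Z).induce B).edgeSet = Nat.card ((F.Gr ε ∅).induce B).edgeSet +
      Nat.card {r : F.R // r ∈ Z ∧ (Sum.inr (F.par r) : F.Vert ε) ∈ B ∧
        (Sum.inr (Sum.inr r) : F.Vert ε) ∈ B}

/-- CON: partitions with all edges of `A` inside blocks are mapped to such partitions.
PROOF. (a) By induction on `Con A v l`: if all edges of `A` are inside blocks of `π` then
`Con A v l → π.r (inr (inl l)) (inr v)`.
(b) Every `v` is in at most one `C_l` (`Con A v l → Con A v l' → l = l'`, induction; the step from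
`inr r` is determined). Let `r ∈ A` and `r₀ = ψ.symm r`. The relation to prove is
`π.r (σ⁻¹ (inr (par r))) (inr (inr r₀))`. If `r ∈ C_k` (`Con A (inr r) k`) then `r₀ ∈ C_j` (because
`ψ` maps `C_j` into `C_k`, `C_k` into `C_j`, and fixes the rest: `ψ` is injective and all sets are
finite, so `ψ` maps `C_j` ONTO `C_k`), and `par r ∈ C_k` (as `v : J ⊕ R`), so its preimage under
`hat` is in `C_j` (for the root: `k = (j k) j`); both are in the block of the root `j` by (a). Same for
`r ∈ C_j`. Otherwise `par r` is not in `C_j ∪ C_k` (as `r ∈ A`), so `σ` fixes `inr (par r)` and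
`inr (inr r)`.
(c) `ψ` maps `A` onto `A`: `C_j` and `C_k` without roots are contained in `A`. -/
def ConStmt : Prop :=
  ∀ (F : Fr) (ε ε' : ℤˣ) (hε : ε' = -ε) (A : Finset F.R) (s : ℕ) (j k : F.J)
    (ψ : Equiv.Perm F.R) (h : F.Xch A s j k ψ) (π : Setoid (F.Vert ε)), (∀ r ∈ A, F.Ins π r) →
    (∀ v l, F.Con A v l → π.r (Sum.inr (Sum.inl l)) (Sum.inr v)) ∧
    (∀ r ∈ A, F.Ins (π.comap (F.sig ε ε' hε j k h.ne ψ).symm) r) ∧
    A.map ψ.toEmbedding = A

/-- XSY: the exchange data are symmetric.
PROOF. `ψ` maps `C_j` onto `C_k` and `C_k` onto `C_j` (finite sets, injective, fixes the rest; see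
CON), so `ψ⁻¹` has the properties `jk`, `kj`, `fix`. `small`: the two sets have the same number of
elements; if the first alternative holds, then it holds for `ψ⁻¹`: for `r ∈ C_j ∪ C_k` put
`r₀ = ψ⁻¹ r ∈ C_j ∪ C_k`, `par r = par (ψ r₀) = hat j k ψ (par r₀)`, so
`hat j k ψ⁻¹ (par r) = par r₀` (`Equiv.swap` is an involution). -/
def XsyStmt : Prop :=
  ∀ (F : Fr) (A : Finset F.R) (s : ℕ) (j k : F.J) (ψ : Equiv.Perm F.R),
    F.Xch A s j k ψ → F.Xch A s j k ψ.symm

/-- BLK: `σ` respects the property to be a `P`-partition.
PROOF. The blocks of `π.comap σ.symm` are the images `σ '' B` of the blocks `B` of `π`. Let `B` be a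
block of `π`, `H = (Gr ε Z).induce B`, `H' = (Gr ε' (Z.map ψ)).induce (σ '' B)`.
(1) If `Nat.card B ≤ s`: the hypothesis of ISO holds: let `r ∈ Z` with `inr (inr r) ∈ B`. If
`Con A (inr r) j` or `k`, say `j`, then by (a) of CON all of `C_j` is in `B` (it is in the block of
`inr (inl j)`), so `C_j` has at most `s` elements, so the second alternative of `small` is impossible
and the first one gives the claim. If `r` is in neither: `ψ r = r`, and `par r` is neither in `C_j` nor
in `C_k` (otherwise `r`, being in `A`, is too); so `hat (par r) = par r`. ISO and `P.iso`.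
(2) If `s < Nat.card B`: use `Insens`. Both are thin; `Nat.card B = Nat.card (σ '' B)`; edges: EDG for
both, `(Gr ε ∅).induce B ≃g (Gr ε' ∅).induce (σ '' B)` by ISO with `Z = ∅`
(`SimpleGraph.Iso.mapEdgeSet` for the numbers of edges), and `r ↦ ψ r` is a bijection between the
two sets of tree edges inside, because for `r ∈ A` the two ends of its edge are in the same block
(hypothesis for `π`, CON (b) for `π.comap σ.symm`), and `inr (inr (ψ r)) ∈ σ '' B` iff
`inr (inr r) ∈ B`. Cores: CRE for both, and COI for the isomorphism with `Z = ∅`. -/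
def BlkStmt : Prop :=
  ∀ (F : Fr) (P : GProp) (g s : ℕ), Insens P g s → F.AllThin g →
    ∀ (ε ε' : ℤˣ) (hε : ε' = -ε) (A : Finset F.R) (j k : F.J) (ψ : Equiv.Perm F.R)
      (h : F.Xch A s j k ψ) (π : Setoid (F.Vert ε)), (∀ r ∈ A, F.Ins π r) → ∀ Z ⊆ A,
      (F.Val P ε Z π ↔
        F.Val P ε' (Z.map ψ.toEmbedding) (π.comap (F.sig ε ε' hε j k h.ne ψ).symm))

/-- KEQ: equality of the numbers `h_i`.
PROOF. Put `K ε A = hc P (Gr ε A) i` as integer: `K ε A = ∑_π [i classes] [Val P ε A π]` (sum over
the finite set of all `π`; `Finite (Setoid _)` because `Setoid` embeds into the relations;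
`Nat.card` of a subtype = card of a filter). Claim `K 1 A = K (-1) A` for all `A`, by strong
induction on `A` (`Finset.strongInduction`). It suffices that `∑_(Z ⊆ A) (-1)^|Z| K ε Z` is the same
for `ε = 1` and `ε = -1` (all terms except `Z = A` agree by induction). Interchange the sums: by CAN
only those `π` with all edges of `A` inside blocks contribute. `π ↦ π.comap σ.symm` is a bijection of
these `π` for `ε = 1` onto those for `ε = -1`: CON (b) with `ε = 1, ε' = -1` in one direction; the
inverse map is `ρ ↦ ρ.comap σ`, where `σ = sig 1 (-1) _ j k _ ψ` is by definition the function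
`(sig (-1) 1 _ j k _ ψ.symm).symm`, so CON (b) with `ε = -1, ε' = 1` and `ψ.symm` (XSY) applies. It
preserves the number of classes (`Quotient.congr`). The inner sums agree by BLK, `Z ↦ Z.map ψ` being a bijection of the
subsets of `A` (CON (c)) which preserves the cardinal. -/
def KeqStmt : Prop :=
  ∀ (F : Fr) (P : GProp) (g s : ℕ), Insens P g s → F.AllThin g → F.AllXch s →
    ∀ (A : Finset F.R) (i : ℕ), hc P (F.Gr 1 A) i = hc P (F.Gr (-1) A) i

/-- PIG: pigeonhole.
PROOF. Fix `A`. For `l : J` let `D_l = {r | Con A (inr r) l}` (contained in the same set with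
`A = univ`, so of cardinal `m_l ≤ M`), with a bijection `c_l : Fin m_l ≃ D_l`. For `r ∈ D_l` the parent
is `inl l` or `inr r'` with `r' ∈ D_l` (invert `Con`), so it gives `p_l : Fin m_l → Option (Fin m_l)`
(`none` for the root). State of `l`: `inl ⟨m_l, p_l⟩` if `m_l ≤ s`, else `inr m_l : Fin (M + 1)`. There are
fewer states than hubs: `j ≠ k` with the same state (`Fintype.exists_ne_map_eq_of_card_lt`). Then
`m_j = m_k` and `c_k ∘ c_j⁻¹ : D_j ≃ D_k`; `D_j` and `D_k` are disjoint (`Con A v` determines the hub).
`ψ` = this bijection on `D_j`, its inverse on `D_k`, identity elsewhere. If `m_j ≤ s` it respects the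
parents: `par (ψ r) = hat (par r)`. If `m_j > s` then `{v // Con A v j}` has `m_j + 1 > s` elements. -/
def PigStmt : Prop :=
  ∀ (F : Fr) (s M : ℕ), F.TreeBd M →
    Fintype.card (Σ m : Fin (s + 1), (Fin m.val → Option (Fin m.val))) + (M + 1) <
      Fintype.card F.J → F.AllXch s

/-! ## The concrete frame -/

/-- TRB: the trees of the concrete frame.
PROOF. `Con univ (inr r) j → r.1 = j` (induction on `Con`, the parent of `⟨j, _⟩` is `inl j` or
`inr ⟨j, _⟩`; state it for `v : J ⊕ R`). So the subtype embeds into the fibre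
`Fin (kh q) ⊕ Σ b : Fin q, Fin (kr b (j b) + 1)`, which has `kh q + ∑_b (kr b _ + 1) ≤
(2 q + 2) + q (2 q + 2) = 2 (q + 1) ^ 2` elements (`kr b _ ≤ 2 q + 1`). -/
def TrbStmt : Prop := ∀ q T : ℕ, (cf q T).TreeBd (2 * (q + 1) ^ 2)

/-- THB: bipartite.
PROOF. Colour by the parity of the depth: centre 0, leg vertex `(i, a)`: `a + 1`, a leaf: one more than
its core vertex; hub: `T + 2`; path vertex `b` of a tree: `T + 3 + b`; leaves one more (leaves of the
hub: `T + 3`). All edges join consecutive depths. `SimpleGraph.Coloring.mk` into `Fin 2`/`Bool`, and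
`Colorable` of an induced subgraph (compose, or define the colouring on the subtype). -/
def ThbStmt : Prop :=
  ∀ (q T : ℕ) (ε : ℤˣ) (Z : Finset (cf q T).R) (B : Set ((cf q T).Vert ε)),
    (((cf q T).Gr ε Z).induce B).Colorable 2

/-- TWO: a nonempty set in which every vertex has two neighbours contains a whole leg.
PROOF. (1) `U` contains no vertex `inr (inr r)` (maximal depth, as in CRE). (2) `U` contains no leaf
`(g, ⟨k, c⟩)`, `c ≠ 0` of a spider: it has only one neighbour. (3) If `U` contains a leg vertex
`(g, ⟨some (i, a), 0⟩)`: its neighbours are its leaves (not in `U`), the vertices `a - 1` (or the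
centre, if `a = 0`) and `a + 1` (or the hub `g i`, if `a = T`): so both of the latter are in `U`. So by
induction up and down all vertices of the leg are in `U`. (4) Otherwise `U` consists of centres and
hubs, which are not adjacent: contradiction. -/
def TwoStmt : Prop :=
  ∀ (q T : ℕ) (ε : ℤˣ) (Z : Finset (cf q T).R) (U : Set ((cf q T).Vert ε)), U.Nonempty →
    (∀ w ∈ U, ∃ a ∈ U, ∃ b ∈ U, a ≠ b ∧ ((cf q T).Gr ε Z).Adj w a ∧ ((cf q T).Gr ε Z).Adj w b) →
    ∃ (g : {g : Equiv.Perm (Fin q → Bool) // Equiv.Perm.sign g = ε}) (i : Fin q → Bool),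
      ∀ a : Fin (T + 1), (Sum.inl (g, ⟨some (i, a), 0⟩) : (cf q T).Vert ε) ∈ U

/-- THG: no short cycles.
PROOF. Let `c` be a cycle in the induced subgraph, `U` the set of the vertices (in `Vert ε`) of its
support. Every vertex of the support has two neighbours in the support
(`SimpleGraph.Walk.IsCycle.ncard_neighborSet_toSubgraph_eq_two`; adjacency of `c.toSubgraph` implies
adjacency in the graph and membership in the support). By TWO the support contains `T + 1` different
vertices, so the length is at least `T + 1 > g` (for a cycle the length is the number of vertices of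
the support: `c.support.tail` is nodup of length `c.length`, and contains every vertex of the
support). -/
def ThgStmt : Prop :=
  ∀ (q T g : ℕ) (ε : ℤˣ) (Z : Finset (cf q T).R) (B : Set ((cf q T).Vert ε)), g ≤ T →
    ∀ (v : B) (c : (((cf q T).Gr ε Z).induce B).Walk v v), c.IsCycle → g < c.length

/-- THE: few edges.
PROOF. Every edge is of one of the forms (i) `{inr (par r), inr (inr r)}`, assign it to the vertex
`inr (inr r)`; (ii) core vertex - leaf in a spider: assign it to the leaf; (iii) centre - `(i, 0)` or
`(i, a) - (i, a + 1)` in a spider: assign it to `(i, 0)`, `(i, a + 1)`; (iv) `(g, (i, T))` - hub `g i`.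
Let `E` be the edges of the induced subgraph on `B`. If (iv) is in `E` and not the whole leg `(g, i)`
is in `B`, let `a` be the largest index with `(g, (i, a)) ∉ B` (`a < T`) and assign the edge to the
vertex `(g, (i, a + 1)) ∈ B`, to which no edge of type (iii) is assigned. So at most one edge is
assigned to every vertex of `B`, and the number of the other edges is at most the number `n` of legs
contained in `B`, `n (T + 1) ≤ |B|`. So `g |E| ≤ g |B| + g n ≤ (g + 1) |B|` since `g ≤ T`.
(Formally: an injection of `E` into `B ⊕ {(g, i) | leg in B}`, and an injection of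
`{(g, i) | leg in B} × Fin (T + 1)` into `B`.) -/
def TheStmt : Prop :=
  ∀ (q T g : ℕ) (ε : ℤˣ) (Z : Finset (cf q T).R) (B : Set ((cf q T).Vert ε)), g ≤ T →
    g * Nat.card (((cf q T).Gr ε Z).induce B).edgeSet ≤ (g + 1) * Nat.card B

/-- LEA: numbers of leaves. Let `lv v` be the number of the neighbours of `v` with exactly one
neighbour.
PROOF. Leaves of spiders and trees have exactly one neighbour, and every other vertex has at least two
neighbours, namely its leaves (`kr, kh, kx ≥ 2`). So the neighbours of a core vertex which have exactly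
one neighbour are exactly its leaves (its other neighbours are core vertices), and a leaf has none. -/
def LeaStmt : Prop :=
  ∀ (q T : ℕ) (ε : ℤˣ) (lv : (cf q T).Vert ε → ℕ),
    (∀ v, lv v = Nat.card {w // ((cf q T).Gr ε Finset.univ).Adj v w ∧
      Nat.card {u // ((cf q T).Gr ε Finset.univ).Adj w u} = 1}) →
    (∀ g k, lv (Sum.inl (g, ⟨k, 0⟩)) = kx q T k) ∧
    (∀ g k c, c ≠ 0 → lv (Sum.inl (g, ⟨k, c⟩)) = 0) ∧
    (∀ j : Fin q → Bool, lv (Sum.inr (Sum.inl j)) = kh q) ∧
    (∀ (j : Fin q → Bool) (c : Fin (kh q)), lv (Sum.inr (Sum.inr ⟨j, Sum.inl c⟩)) = 0) ∧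
    (∀ (j : Fin q → Bool) (b : Fin q),
      lv (Sum.inr (Sum.inr ⟨j, Sum.inr ⟨b, 0⟩⟩)) = kr b.val (j b)) ∧
    (∀ (j : Fin q → Bool) (b : Fin q) (c : Fin (kr b.val (j b) + 1)), c ≠ 0 →
      lv (Sum.inr (Sum.inr ⟨j, Sum.inr ⟨b, c⟩⟩)) = 0)

/-- NIS: the two graphs are not isomorphic.
PROOF. Let `φ` be an isomorphism. `lv (φ v) = lv v` for the numbers of LEA (bijections of the
neighbourhoods). The values `0`, `kr b bit = 2 + 2 b + bit ≤ 2 q + 1`, `kh q = 2 q + 2`,
`kx q T k = 2 q + 3 + index of k` are different, so `φ` maps: core vertices `(g, ⟨k, 0⟩)` of spiders to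
core vertices `(g', ⟨k, 0⟩)` with the same `k`; hubs to hubs; path vertices `⟨j, b⟩` to path vertices
`⟨j', b⟩` with the same `b` and `j' b = j b`.
(a) `φ (hub j) = hub j`: let `φ (hub j) = hub j'`. The vertex `⟨j, 0⟩` (if `q > 0`) is adjacent to the
hub `j`, so its image `⟨j'', 0⟩` is adjacent to the hub `j'`: `j'' = j'`; by induction on `b` the image
of `⟨j, b⟩` is `⟨j', b⟩` (adjacent consecutive path vertices are in the same tree). So `j' b = j b` for
all `b`: `j' = j`.
(b) Let `g = 1` (sign `1`), `φ (1, ⟨none, 0⟩) = (g', ⟨none, 0⟩)`. For every `i`: the image of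
`(1, ⟨some (i, 0), 0⟩)` is adjacent to the image of the centre, so it is `(g', ⟨some (i, 0), 0⟩)`, and
by induction on `a` the image of `(1, ⟨some (i, a), 0⟩)` is `(g', ⟨some (i, a), 0⟩)`. For `a = T` it is
adjacent to the hub `i`; so `(g', ⟨some (i, T), 0⟩)` is adjacent to the hub `i` by (a), that is
`i = g' i`. So `g' = 1`, but `g'` has sign `-1`. -/
def NisStmt : Prop :=
  ∀ q T : ℕ, ¬ Nonempty ((cf q T).Gr 1 Finset.univ ≃g (cf q T).Gr (-1) Finset.univ)

/-- CRD: the orders.
PROOF. Multiplication with a transposition is a bijection between the permutations of sign `1` and `-1`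
(`q ≥ 1`: there are two hubs `j ≠ k`; use the equivalence `sig` with `ψ = 1`), so the orders agree; the hubs
inject: `2 ^ q ≤ card`. -/
def CrdStmt : Prop :=
  ∀ q T : ℕ, 1 ≤ q → q ≤ Nat.card ((cf q T).Vert 1) ∧
    Nat.card ((cf q T).Vert 1) = Nat.card ((cf q T).Vert (-1))

/-- MAI: MAIN THEOREM.
PROOF. By CPL it is enough to treat `Insens P g s`. Given `N` take `T = g` and `q ≥ max N 1` with
`c(s) + (2 (q + 1) ^ 2 + 1) < 2 ^ q`, `c(s)` the cardinal in PIG. Then TRB, PIG give `AllXch s`; THB,
THG, THE give `AllThin g`; KEQ with `A = univ` gives the same numbers; NIS, CRD, FIN. -/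
def MaiStmt : Prop := ∀ (P : GProp) (g s : ℕ), Insens P g s ∨ Insens P.co g s → InfMates P

/-! ## Corollaries -/

/-- COA: few sparse members.
PROOF. Let `ε > 0`, `g ≥ 1` with `1 / g ≤ ε`. A thin graph with `n > s` vertices has
`|E| ≤ (1 + 1/g) n ≤ (1 + ε) n`, so it is not in `P` (first case), or its complement is not in `P`
(second case: use that the complement of the complement is the graph). So `Insens P g s` or
`Insens P.co g s` holds, both sides being false. -/
def CoaStmt : Prop :=
  ∀ (P : GProp) (ε : ℝ) (s : ℕ), 0 < ε →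
    ((∀ (V : Type) [Finite V] (G : SimpleGraph V), s < Nat.card V → P.mem G →
        (1 + ε) * Nat.card V < Nat.card G.edgeSet) ∨
      (∀ (V : Type) [Finite V] (G : SimpleGraph V), s < Nat.card V → P.mem G →
        (1 + ε) * Nat.card V < Nat.card Gᶜ.edgeSet)) → InfMates P

/-- COB: bounded clique number or bounded independence number.
PROOF. `g = 1`, `s = 2 m`. Let `H` be thin of order `n > 2 m`: it is 2-colourable, so one of the colour
classes is an independent set with at least `n / 2 ≥ m` vertices; a subset of size `m` is an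
independent set of size `m` in `H` and a clique of size `m` in `Hᶜ`. So `H` is not in `P` if no member
has an independent set of size `m`, and `Hᶜ` is not in `P` if no member has a clique of size `m`.
(`SimpleGraph.CliqueFree`; independent sets of `G` = cliques of `Gᶜ`.) -/
def CobStmt : Prop :=
  ∀ (P : GProp) (m : ℕ),
    ((∀ (V : Type) [Finite V] (G : SimpleGraph V), P.mem G → G.CliqueFree m) ∨
      (∀ (V : Type) [Finite V] (G : SimpleGraph V), P.mem G → Gᶜ.CliqueFree m)) → InfMates P

/-- COC: properties which depend only on the numbers of vertices and edges.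
PROOF. `Insens P 1 0` is a special case of the hypothesis. -/
def CocStmt : Prop :=
  ∀ P : GProp, (∀ (V W : Type) [Finite V] [Finite W] (G : SimpleGraph V) (H : SimpleGraph W),
    Nat.card V = Nat.card W → Nat.card G.edgeSet = Nat.card H.edgeSet → (P.mem G ↔ P.mem H)) →
    InfMates P

/-- COD: hereditary properties.
PROOF. Case A: for every `N` there are `n ≥ N` and two non-isomorphic graphs on `Fin n` in `P`. All
induced subgraphs of them are in `P`, so `hc P G i` is the number of all equivalence relations with `i`
classes for both: mates. Case B: there is `N` such that for `n ≥ N` any two graphs on `Fin n` in `P`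
are isomorphic. Let `m = max N 2`. The edgeless and the complete graph on `Fin m` are not isomorphic, so
one of them is not in `P`. If the edgeless one is not in `P`, then no thin graph `H` of order `> 2 m` is
in `P`: `H` has an independent set of size `m` (COB), which induces a graph isomorphic to the edgeless
graph on `Fin m`. So `Insens P 1 (2 m)`. If the complete one is not in `P`, then `Hᶜ` is not in `P` for
thin `H` of order `> 2 m`, so `Insens P.co 1 (2 m)`. -/
def CodStmt : Prop :=
  ∀ P : GProp, (∀ (V : Type) [Finite V] (G : SimpleGraph V) (B : Set V), P.mem G →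
    P.mem (G.induce B)) → InfMates P

end Pool.Agent.HMT
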