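import Pool.Agent.HMT.Stmts
import Pool.Agent.Helper84_HMT.HCI
import Pool.Agent.Helper77_HMT.FIN
import Pool.Agent.Helper82_HMT.COI
import Pool.Agent.Helper45_HMT.CAN
import Pool.Agent.Helper69_HMT.ISO
import Pool.Agent.Helper76_HMT.EDG
import Pool.Agent.Helper65_HMT.HCon
import Pool.Agent.Helper32_HMT.XSY
import Pool.Agent.Helper13_HMT.BLK
import Pool.Agent.Helper86_HMT.KEQ
import Pool.Agent.Helper3_HMT.PIG
import Pool.Agent.Helper49_HMT.TRB
import Pool.Agent.Helper13_HMT.THB
import Pool.Agent.Helper62_HMT.TWO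
import Pool.Agent.Helper49_HMT.THG
import Pool.Agent.Helper49_HMT.THE
import Pool.Agent.Helper52_HMT.LEA
import Pool.Agent.Helper79_HMT.NIS
import Pool.Agent.Helper70_HMT.CRD
import Pool.Agent.Helper70_HMT.MAI
import Pool.Agent.Helper70_HMT.COA
import Pool.Agent.Helper3_HMT.COB
import Pool.Agent.Helper39_HMT.COC
import Pool.Agent.Helper70_HMT.COD

/-! # Squad HMT: assembly -/

namespace Pool.Agent.HMT.Fin

theorem blk : BlkStmt := H13.blk H69.iso H69.cre H82.coi H76.edg H65.con

theorem keq : KeqStmt := H86.keq H45.can H65.con H32.xsy blk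

theorem fin : FinStmt := H77.fin H84.hci

theorem thg : ThgStmt := H49.thg H62.two

theorem nis : NisStmt := H79.nis H52.lea

/-- main theorem -/
theorem mai : MaiStmt :=
  H70.mai H84.hci fin H84.cpl keq H3.pig H49.trb H13.thb thg H49.the nis H70.crd

theorem coa : CoaStmt := H70.coa mai

theorem cob : CobStmt := H3.cob mai

theorem coc : CocStmt := H39.coc mai

theorem cod : CodStmt := H70.cod mai H84.hci

end Pool.Agent.HMT.Fin
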