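import Mathlib

/-!
# Harary polynomials: the definitions used in the statements (squad HMT, MP_09e7c7_co)
-/

namespace Pool.Agent.HMT

open Polynomial

/-- A property of finite graphs: a class of finite simple graphs closed under isomorphism. -/
structure GProp where
  /-- membership -/
  mem : ∀ ⦃V : Type⦄ [Finite V], SimpleGraph V → Prop
  /-- invariance under isomorphism -/
  iso : ∀ ⦃V W : Type⦄ [Finite V] [Finite W] (G : SimpleGraph V) (H : SimpleGraph W),
    Nonempty (G ≃g H) → (mem G ↔ mem H)

/-- The property `P'` of all graphs whose complement belongs to `P`. -/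
def GProp.co (P : GProp) : GProp where
  mem := fun V _ G => P.mem Gᶜ
  iso := fun V W _ _ G H h => by
    obtain ⟨e⟩ := h
    refine P.iso Gᶜ Hᶜ ⟨⟨e.toEquiv, ?_⟩⟩
    intro a b
    simp only [SimpleGraph.compl_adj]
    have h1 : H.Adj (e.toEquiv a) (e.toEquiv b) ↔ G.Adj a b := e.map_rel_iff
    rw [h1]
    simp

/-- The number of partitions of the vertex set into `i` blocks (equivalence relations with `i`
classes) such that every block induces a graph in `P`. -/
noncomputable def hc (P : GProp) {V : Type} [Finite V] (G : SimpleGraph V) (i : ℕ) : ℕ :=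
  Nat.card {π : Setoid V // Nat.card (Quotient π) = i ∧ ∀ v, P.mem (G.induce {w | π.r w v})}

/-- The Harary polynomial. -/
noncomputable def harary (P : GProp) {V : Type} [Finite V] (G : SimpleGraph V) : ℤ[X] :=
  ∑ i ∈ Finset.range (Nat.card V + 1), (hc P G i : ℤ[X]) * descPochhammer ℤ i

/-- Mates: not isomorphic, same Harary polynomial. -/
def Mates (P : GProp) {V W : Type} [Finite V] [Finite W] (G : SimpleGraph V) (H : SimpleGraph W) :
    Prop :=
  ¬ Nonempty (G ≃g H) ∧ harary P G = harary P H

/-- Infinitely many pairs of mates: there are mates of arbitrarily large order. -/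
def InfMates (P : GProp) : Prop :=
  ∀ N : ℕ, ∃ n, N ≤ n ∧ ∃ G H : SimpleGraph (Fin n), Mates P G H

/-- Very sparse graphs: bipartite, no cycle of length `≤ g`, at most `(1 + 1/g) n` edges. -/
def Thin (g : ℕ) {V : Type} [Finite V] (G : SimpleGraph V) : Prop :=
  G.Colorable 2 ∧ (∀ (v : V) (c : G.Walk v v), c.IsCycle → g < c.length) ∧
    g * Nat.card G.edgeSet ≤ (g + 1) * Nat.card V

/-- The vertex set of the 2-core: the union of all sets `S` in which every vertex has two
neighbours. -/
def core {V : Type} (G : SimpleGraph V) : Set V :=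
  {v | ∃ S : Set V, v ∈ S ∧ ∀ w ∈ S, ∃ a ∈ S, ∃ b ∈ S, a ≠ b ∧ G.Adj w a ∧ G.Adj w b}

/-- For thin graphs of order `> s`, membership in `P` depends only on the order, the number of edges
and the 2-core. -/
def Insens (P : GProp) (g s : ℕ) : Prop :=
  ∀ (V W : Type) [Finite V] [Finite W] (G : SimpleGraph V) (H : SimpleGraph W),
    Thin g G → Thin g H → Nat.card V = Nat.card W → s < Nat.card V →
    Nat.card G.edgeSet = Nat.card H.edgeSet →
    Nonempty (G.induce (core G) ≃g H.induce (core H)) → (P.mem G ↔ P.mem H)

end Pool.Agent.HMT
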