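import Pool.Agent.HMT.Base

/-!
# Squad HMT (MP_09e7c7_co, mates for Harary polynomials): frames (auxiliary definitions)
-/

namespace Pool.Agent.HMT

open Polynomial

/-! ## Frames

A frame consists of a finite set `J` of hubs, a finite graph `S` on `X` with marked vertices
`e i`, `i ∈ J`, and a forest of trees rooted at the hubs, given by the parent map
`par : R → J ⊕ R` (`R` = vertices which are not hubs), `dep` = depth. -/

/-- frames -/
structure Fr where
  /-- hubs -/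
  J : Type
  /-- vertices of the spider -/
  X : Type
  /-- vertices of the trees which are not hubs -/
  R : Type
  [fJ : Fintype J]
  [dJ : DecidableEq J]
  [fX : Fintype X]
  [fR : Fintype R]
  [dR : DecidableEq R]
  /-- the spider -/
  S : SimpleGraph X
  /-- ends of the legs -/
  e : J → X
  /-- parents -/
  par : R → J ⊕ R
  /-- depth -/
  dep : R → ℕ
  hdep : ∀ r r', par r = Sum.inr r' → dep r' < dep r

attribute [instance] Fr.fJ Fr.dJ Fr.fX Fr.fR Fr.dR

namespace Fr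

variable (F : Fr)

/-- vertices of the graph `G_ε`: copies `(g, x)` of the spider for the permutations `g` of sign `ε`,
hubs `j`, vertices `r` -/
abbrev Vert (ε : ℤˣ) : Type :=
  ({g : Equiv.Perm F.J // Equiv.Perm.sign g = ε} × F.X) ⊕ (F.J ⊕ F.R)

/-- the edges of `G_ε(Z)` (one direction): spiders, leg `i` of the spider `g` to the hub `g i`,
tree edges `{par r, r}` for `r ∈ Z` -/
def rel (ε : ℤˣ) (Z : Finset F.R) : F.Vert ε → F.Vert ε → Prop
  | .inl (g, x), .inl (h, y) => g = h ∧ F.S.Adj x y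
  | .inl (g, x), .inr (.inl j) => x = F.e (g.1.symm j)
  | .inr p, .inr (.inr r) => p = F.par r ∧ r ∈ Z
  | _, _ => False

/-- the graph `G_ε(Z)` -/
def Gr (ε : ℤˣ) (Z : Finset F.R) : SimpleGraph (F.Vert ε) := SimpleGraph.fromRel (F.rel ε Z)

/-- `Con A v j`: `v` is in the component `C_j` of the hub `j` in the forest with edges
`{par r, r}`, `r ∈ A` -/
inductive Con (A : Finset F.R) : F.J ⊕ F.R → F.J → Prop
  | root (j : F.J) : Con A (Sum.inl j) j
  | step (r : F.R) (j : F.J) : r ∈ A → Con A (F.par r) j → Con A (Sum.inr r) j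

/-- the map of hubs and tree vertices given by the transposition `(j k)` and `ψ` -/
def hat (j k : F.J) (ψ : Equiv.Perm F.R) : F.J ⊕ F.R → F.J ⊕ F.R :=
  Sum.map (Equiv.swap j k) ψ

/-- exchange data for `A`: `ψ` exchanges `C_j` and `C_k` (without the roots), fixes everything else,
and if `C_j` (or `C_k`) has at most `s` elements then `ψ` respects the parents -/
structure Xch (A : Finset F.R) (s : ℕ) (j k : F.J) (ψ : Equiv.Perm F.R) : Prop where
  ne : j ≠ k
  jk : ∀ r, F.Con A (Sum.inr r) j → F.Con A (Sum.inr (ψ r)) k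
  kj : ∀ r, F.Con A (Sum.inr r) k → F.Con A (Sum.inr (ψ r)) j
  fix : ∀ r, ¬ F.Con A (Sum.inr r) j → ¬ F.Con A (Sum.inr r) k → ψ r = r
  small : (∀ r, F.Con A (Sum.inr r) j ∨ F.Con A (Sum.inr r) k →
      F.par (ψ r) = F.hat j k ψ (F.par r)) ∨
    (s < Nat.card {v : F.J ⊕ F.R // F.Con A v j} ∧ s < Nat.card {v : F.J ⊕ F.R // F.Con A v k})

/-- the bijection `σ : V_ε → V_ε'`, `ε' = -ε`. Its inverse is `sig ε' ε _ j k hjk ψ.symm`
(definitionally equal functions). -/
def sig (ε ε' : ℤˣ) (hε : ε' = -ε) (j k : F.J) (hjk : j ≠ k) (ψ : Equiv.Perm F.R) :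
    F.Vert ε ≃ F.Vert ε' where
  toFun := Sum.map (Prod.map (fun g => ⟨Equiv.swap j k * g.1, by
      rw [Equiv.Perm.sign_mul, Equiv.Perm.sign_swap hjk, g.2, hε]; simp⟩) id)
    (Sum.map (Equiv.swap j k) ψ)
  invFun := Sum.map (Prod.map (fun g => ⟨Equiv.swap j k * g.1, by
      rw [Equiv.Perm.sign_mul, Equiv.Perm.sign_swap hjk, g.2, hε]; simp⟩) id)
    (Sum.map (Equiv.swap j k) ψ.symm)
  left_inv := by
    rintro (⟨g, x⟩ | j' | r)
    · simp only [Sum.map_inl, Prod.map_apply, id]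
      congr 2
      apply Subtype.ext
      change Equiv.swap j k * (Equiv.swap j k * g.1) = g.1
      rw [← mul_assoc, Equiv.swap_mul_self, one_mul]
    · simp
    · simp
  right_inv := by
    rintro (⟨g, x⟩ | j' | r)
    · simp only [Sum.map_inl, Prod.map_apply, id]
      congr 2
      apply Subtype.ext
      change Equiv.swap j k * (Equiv.swap j k * g.1) = g.1
      rw [← mul_assoc, Equiv.swap_mul_self, one_mul]
    · simp
    · simp

theorem sig_symm (ε ε' : ℤˣ) (hε : ε' = -ε) (hε' : ε = -ε') (j k : F.J) (hjk : j ≠ k)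
    (ψ : Equiv.Perm F.R) (v : F.Vert ε') :
    (F.sig ε ε' hε j k hjk ψ).symm v = F.sig ε' ε hε' j k hjk ψ.symm v := rfl

@[simp] theorem sig_inl (ε ε' : ℤˣ) (hε : ε' = -ε) (j k : F.J) (hjk : j ≠ k)
    (ψ : Equiv.Perm F.R) (g : {g : Equiv.Perm F.J // Equiv.Perm.sign g = ε}) (x : F.X) :
    F.sig ε ε' hε j k hjk ψ (Sum.inl (g, x)) = Sum.inl (⟨Equiv.swap j k * g.1, by
      rw [Equiv.Perm.sign_mul, Equiv.Perm.sign_swap hjk, g.2, hε]; simp⟩, x) := rfl

@[simp] theorem sig_inr (ε ε' : ℤˣ) (hε : ε' = -ε) (j k : F.J) (hjk : j ≠ k)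
    (ψ : Equiv.Perm F.R) (v : F.J ⊕ F.R) :
    F.sig ε ε' hε j k hjk ψ (Sum.inr v) = Sum.inr (F.hat j k ψ v) := rfl

/-- the edge `{par r, r}` is inside a block of the partition -/
def Ins {ε : ℤˣ} (π : Setoid (F.Vert ε)) (r : F.R) : Prop :=
  π.r (Sum.inr (F.par r)) (Sum.inr (Sum.inr r))

/-- `π` is a `P`-partition of `G_ε(Z)` -/
def Val (P : GProp) (ε : ℤˣ) (Z : Finset F.R) (π : Setoid (F.Vert ε)) : Prop :=
  ∀ v, P.mem ((F.Gr ε Z).induce {w | π.r w v})

/-- every tree has at most `M` vertices which are not hubs -/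
def TreeBd (M : ℕ) : Prop := ∀ j, Nat.card {r : F.R // F.Con Finset.univ (Sum.inr r) j} ≤ M

/-- all induced subgraphs of all `G_ε(Z)` are thin -/
def AllThin (g : ℕ) : Prop := ∀ (ε : ℤˣ) (Z : Finset F.R) (B : Set (F.Vert ε)),
  Thin g ((F.Gr ε Z).induce B)

/-- exchange data exist for all `A` -/
def AllXch (s : ℕ) : Prop := ∀ A : Finset F.R, ∃ j k ψ, F.Xch A s j k ψ

end Fr

/-! ## The concrete frame

Hubs: `j : Fin q → Bool`. Spider: centre `none`, leg vertices `some (i, a)`, `a : Fin (T + 1)`; the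
core vertex `k` has `kx q T k` leaves. Tree of the hub `j`: `kh q` leaves at the hub, a path
`b = 0, …, q - 1` starting at the hub, where the vertex `b` has `kr b (j b)` leaves. The numbers
`kr b bit` (`2 ≤ · ≤ 2 q + 1`), `kh q = 2 q + 2`, `kx q T k ≥ 2 q + 3` are all different. -/

/-- number of leaves of the path vertex `b` -/
def kr (b : ℕ) (bit : Bool) : ℕ := 2 + 2 * b + (if bit then 1 else 0)

/-- number of leaves of a hub -/
def kh (q : ℕ) : ℕ := 2 * q + 2

/-- core vertices of the spider -/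
abbrev KX (q T : ℕ) : Type := Option ((Fin q → Bool) × Fin (T + 1))

/-- number of leaves of a core vertex of the spider -/
noncomputable def kx (q T : ℕ) (k : KX q T) : ℕ := 2 * q + 3 + (Fintype.equivFin (KX q T) k).val

/-- vertices of the spider: `⟨k, 0⟩` core vertex, `⟨k, c⟩`, `c ≠ 0`, its leaves -/
abbrev XX (q T : ℕ) : Type := Σ k : KX q T, Fin (kx q T k + 1)

/-- edges of the spider, one direction -/
def srel (q T : ℕ) : XX q T → XX q T → Prop := fun x y =>
  (x.1 = y.1 ∧ x.2.val = 0 ∧ y.2.val ≠ 0) ∨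
  (x.2.val = 0 ∧ y.2.val = 0 ∧ ((x.1 = none ∧ ∃ i, y.1 = some (i, 0)) ∨
    ∃ (i : Fin q → Bool) (a b : Fin (T + 1)), x.1 = some (i, a) ∧ y.1 = some (i, b) ∧
      b.val = a.val + 1))

/-- vertices of the trees which are not hubs: `⟨j, inl c⟩` leaves of the hub, `⟨j, inr ⟨b, 0⟩⟩` path
vertices, `⟨j, inr ⟨b, c⟩⟩`, `c ≠ 0`, their leaves -/
abbrev RR (q : ℕ) : Type :=
  Σ j : Fin q → Bool, (Fin (kh q) ⊕ Σ b : Fin q, Fin (kr b.val (j b) + 1))

/-- parents -/
def rpar (q : ℕ) : RR q → (Fin q → Bool) ⊕ RR q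
  | ⟨j, .inl _⟩ => .inl j
  | ⟨j, .inr ⟨b, c⟩⟩ =>
    if c.val = 0 then
      if b.val = 0 then .inl j else
        .inr ⟨j, .inr ⟨⟨b.val - 1, lt_of_le_of_lt (Nat.sub_le _ _) b.isLt⟩, 0⟩⟩
    else .inr ⟨j, .inr ⟨b, 0⟩⟩

/-- depth -/
def rdep (q : ℕ) : RR q → ℕ
  | ⟨_, .inl _⟩ => 0
  | ⟨_, .inr ⟨b, c⟩⟩ => b.val + (if c.val = 0 then 0 else 1)

theorem rdep_lt (q : ℕ) (r r' : RR q) (h : rpar q r = Sum.inr r') : rdep q r' < rdep q r := by
  obtain ⟨j, c | ⟨b, c⟩⟩ := r
  · simp [rpar] at h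
  · simp only [rpar] at h
    split_ifs at h with h1 h2
    · simp only [Sum.inr.injEq] at h
      rw [← h]
      simp [rdep, h1]
      omega
    · simp only [Sum.inr.injEq] at h
      rw [← h]
      simp [rdep, h1]

/-- the concrete frame -/
noncomputable def cf (q T : ℕ) : Fr where
  J := Fin q → Bool
  X := XX q T
  R := RR q
  S := SimpleGraph.fromRel (srel q T)
  e := fun i => ⟨some (i, Fin.last T), 0⟩
  par := rpar q
  dep := rdep q
  hdep := rdep_lt q

end Pool.Agent.HMT
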